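import Pool.Agent.V1166.VG.ConcreteB

/-! Good and Verdier good maps of exact triangles: neither implication holds. -/

noncomputable section

namespace Pool.Agent.Results.MP_f37e0b_al.GoodVsVerdierGood

open CategoryTheory Pretriangulated Pool.Agent.V1166.VG

/-- There is a triangulated category containing a map of exact triangles which is good and not
Verdier good, and a map of exact triangles which is Verdier good and not good. -/
theorem result :
    ∃ (C : Type 1) (_ : Category.{0} C) (_ : Preadditive C) (_ : Limits.HasZeroObject C)
      (_ : HasShift C ℤ) (_ : ∀ n : ℤ, (shiftFunctor C n).Additive) (_ : Pretriangulated C)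
      (_ : IsTriangulated C),
      (∃ (T T' : Triangle C) (φ : T ⟶ T'),
        T ∈ distTriang C ∧ T' ∈ distTriang C ∧ GoodAlt φ ∧ ¬ VerdierGood φ) ∧
      (∃ (T T' : Triangle C) (φ : T ⟶ T'),
        T ∈ distTriang C ∧ T' ∈ distTriang C ∧ VerdierGood φ ∧ ¬ GoodAlt φ) :=
  ⟨KB, inferInstance, inferInstance, inferInstance, inferInstance, inferInstance,
    inferInstance, inferInstance, exists_good_not_verdierGood, exists_verdierGood_not_good⟩

end Pool.Agent.Results.MP_f37e0b_al.GoodVsVerdierGood
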